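import Pool.Agent.Helper41.KV.GoalsD

/-!
# Packet 5534: KV-EXPL (`MP_66be51_an`)

Explicit form of the Taylor coefficients of the right field on `(0,1/2)`.
-/

namespace Pool.Agent.Helper41.KV

open Real MeasureTheory Pool.Agent.Helper33.KV

namespace Expl57

/-- Evaluation point. -/
noncomputable def pt (α x : ℝ) : Fin 2 → ℝ := ![x ^ (2 * α), Real.log x]

theorem ev_deriv (α : ℝ) (g : XL) (x : ℝ) (hx : 0 < x) :
    HasDerivAt (fun x => MvPolynomial.eval (pt α x) g)
      (x⁻¹ * MvPolynomial.eval (pt α x) (delt α g)) x := by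
  induction g using MvPolynomial.induction_on with
  | C a =>
    simp only [MvPolynomial.eval_C]
    have h0 : delt α (MvPolynomial.C a) = 0 := by
      have := (delt α).map_algebraMap a
      simpa [MvPolynomial.algebraMap_eq] using this
    rw [h0, map_zero, mul_zero]
    exact hasDerivAt_const x a
  | add p q hp hq =>
    have h3 : x⁻¹ * MvPolynomial.eval (pt α x) (delt α (p + q))
        = x⁻¹ * MvPolynomial.eval (pt α x) (delt α p)
          + x⁻¹ * MvPolynomial.eval (pt α x) (delt α q) := by
      simp only [map_add]; ring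
    have h4 : (fun x => MvPolynomial.eval (pt α x) (p + q))
        = (fun x => MvPolynomial.eval (pt α x) p) + fun x => MvPolynomial.eval (pt α x) q := by
      funext y; simp
    rw [h3, h4]
    exact hp.add hq
  | mul_X p i hp =>
    have hX : HasDerivAt (fun x => pt α x i)
        (x⁻¹ * MvPolynomial.eval (pt α x) (delt α (MvPolynomial.X i))) x := by
      fin_cases i
      · have h1 : HasDerivAt (fun x : ℝ => x ^ (2 * α)) (2 * α * x ^ (2 * α - 1)) x :=
          Real.hasDerivAt_rpow_const (Or.inl hx.ne')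
        have h2 : delt α (MvPolynomial.X 0) = MvPolynomial.C (2 * α) * MvPolynomial.X 0 := by
          simp [delt]
        have h3 : x⁻¹ * MvPolynomial.eval (pt α x) (delt α (MvPolynomial.X 0))
            = 2 * α * x ^ (2 * α - 1) := by
          simp only [h2, map_mul, MvPolynomial.eval_C, MvPolynomial.eval_X]
          simp only [pt, Matrix.cons_val_zero]
          rw [Real.rpow_sub hx, Real.rpow_one]
          field_simp
        change HasDerivAt (fun x : ℝ => x ^ (2 * α))
          (x⁻¹ * MvPolynomial.eval (pt α x) (delt α (MvPolynomial.X 0))) x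
        rw [h3]
        exact h1
      · have h1 : HasDerivAt (fun x : ℝ => Real.log x) x⁻¹ x := Real.hasDerivAt_log hx.ne'
        have h2 : delt α (MvPolynomial.X 1) = 1 := by
          simp [delt]
        have h3 : x⁻¹ * MvPolynomial.eval (pt α x) (delt α (MvPolynomial.X 1)) = x⁻¹ := by
          simp only [h2, map_one, mul_one]
        change HasDerivAt (fun x : ℝ => Real.log x)
          (x⁻¹ * MvPolynomial.eval (pt α x) (delt α (MvPolynomial.X 1))) x
        rw [h3]
        exact h1
    have h3 : x⁻¹ * MvPolynomial.eval (pt α x) (delt α (p * MvPolynomial.X i))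
        = x⁻¹ * MvPolynomial.eval (pt α x) (delt α p) * pt α x i
          + MvPolynomial.eval (pt α x) p
            * (x⁻¹ * MvPolynomial.eval (pt α x) (delt α (MvPolynomial.X i))) := by
      rw [(delt α).leibniz]
      simp only [smul_eq_mul, map_add, map_mul, MvPolynomial.eval_X]
      ring
    have h4 : (fun x => MvPolynomial.eval (pt α x) (p * MvPolynomial.X i))
        = (fun x => MvPolynomial.eval (pt α x) p) * fun x => pt α x i := by
      funext y; simp
    rw [h3, h4]
    exact hp.mul hX

theorem pev_deriv (α β : ℝ) (g : XL) (x : ℝ) (hx : 0 < x) :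
    HasDerivAt (fun x => x ^ β * MvPolynomial.eval (pt α x) g)
      (x ^ (β - 1) * MvPolynomial.eval (pt α x) (bd α β g)) x := by
  have h1 : HasDerivAt (fun x : ℝ => x ^ β) (β * x ^ (β - 1)) x :=
    Real.hasDerivAt_rpow_const (Or.inl hx.ne')
  have h2 := h1.mul (ev_deriv α g x hx)
  have h3 : x ^ (β - 1) * MvPolynomial.eval (pt α x) (bd α β g)
      = β * x ^ (β - 1) * MvPolynomial.eval (pt α x) g
        + x ^ β * (x⁻¹ * MvPolynomial.eval (pt α x) (delt α g)) := by
    have h4 : bd α β g = MvPolynomial.C β * g + delt α g := rfl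
    rw [h4]
    simp only [map_add, map_mul, MvPolynomial.eval_C]
    rw [Real.rpow_sub hx, Real.rpow_one]
    field_simp
  rw [h3]
  exact h2

/-- The class of functions with the explicit form on `(0,1/2)`. -/
def Ex (α β : ℝ) (f : ℝ → ℝ) (g : XL) : Prop :=
  ∀ x : ℝ, 0 < x → x < 1/2 → f x = x ^ β * MvPolynomial.eval (pt α x) g

theorem Ex.deriv {α β : ℝ} {f : ℝ → ℝ} {g : XL} (h : Ex α β f g) :
    Ex α (β - 1) (deriv f) (bd α β g) := by
  intro x hx hx'
  have hev : f =ᶠ[nhds x] fun x => x ^ β * MvPolynomial.eval (pt α x) g := by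
    filter_upwards [Ioo_mem_nhds hx hx'] with y hy using h y hy.1 hy.2
  rw [hev.deriv_eq]
  exact (pev_deriv α β g x hx).deriv

theorem coeff_mul_ex {α b b' : ℝ} {A A' : Polynomial (ℝ → ℝ)} {B B' : Polynomial XL}
    (h : ∀ i : ℕ, Ex α (b - 3 * i) (A.coeff i) (B.coeff i))
    (h' : ∀ i : ℕ, Ex α (b' - 3 * i) (A'.coeff i) (B'.coeff i)) (i : ℕ) :
    Ex α (b + b' - 3 * i) ((A * A').coeff i) ((B * B').coeff i) := by
  intro x hx hx'
  rw [Polynomial.coeff_mul, Polynomial.coeff_mul, Finset.sum_apply, map_sum, Finset.mul_sum]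
  refine Finset.sum_congr rfl fun ab hab => ?_
  rw [Pi.mul_apply, h ab.1 x hx hx', h' ab.2 x hx hx', map_mul]
  have hs : (ab.1 : ℝ) + ab.2 = i := by
    have := Finset.HasAntidiagonal.mem_antidiagonal.mp hab
    exact_mod_cast this
  have : x ^ (b + b' - 3 * (i : ℝ)) = x ^ (b - 3 * (ab.1 : ℝ)) * x ^ (b' - 3 * (ab.2 : ℝ)) := by
    rw [← Real.rpow_add hx]
    congr 1
    rw [← hs]; ring
  rw [this]; ring

theorem coeff_pow5_ex {α b : ℝ} {A : Polynomial (ℝ → ℝ)} {B : Polynomial XL}
    (h : ∀ i : ℕ, Ex α (b - 3 * i) (A.coeff i) (B.coeff i)) (i : ℕ) :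
    Ex α (5 * b - 3 * i) ((A ^ 5).coeff i) ((B ^ 5).coeff i) := by
  have h2 := coeff_mul_ex h h
  have h3 := coeff_mul_ex h2 h
  have h4 := coeff_mul_ex h3 h
  have h5 := coeff_mul_ex h4 h
  have e1 : A ^ 5 = A * A * A * A * A := by ring
  have e2 : B ^ 5 = B * B * B * B * B := by ring
  have e3 : (5 * b - 3 * (i : ℝ)) = b + b + b + b + b - 3 * i := by ring
  rw [e1, e2, e3]
  exact h5 i

theorem main (α : ℝ) (p : ℕ → Polynomial ℝ) (J n : ℕ) :
    ∀ i : ℕ, Ex α (α - 1/2 - 3 * i) ((Fs (fZero α p J) n).coeff i)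
      ((Phi α (gZero p J) n).coeff i) := by
  induction n with
  | zero =>
    intro i x hx hx'
    simp only [Fs, Phi, Polynomial.coeff_C]
    by_cases hi : i = 0
    · subst hi
      simp only [if_true]
      have h1 : Real.smoothTransition (2 - 2 * x) = 1 :=
        Real.smoothTransition.one_of_one_le (by linarith)
      unfold fZero
      rw [if_pos hx, h1, one_mul]
      simp [pt]
    · simp [hi]
  | succ n ih =>
    intro i x hx hx'
    simp only [Fs, Phi, Polynomial.coeff_add, Polynomial.coeff_monomial]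
    rw [Pi.add_apply, ih i x hx hx', map_add, mul_add]
    congr 1
    by_cases hi : n + 1 = i
    · subst hi
      simp only [if_true]
      have a0 := ih n
      have a1 := a0.deriv
      have a2 := a1.deriv
      have a3 := a2.deriv
      have b0 := coeff_pow5_ex ih n
      have b1 := b0.deriv
      have hit : iteratedDeriv 3 ((Fs (fZero α p J) n).coeff n) x
          = deriv (deriv (deriv ((Fs (fZero α p J) n).coeff n))) x := by
        simp [iteratedDeriv_succ, iteratedDeriv_zero]
      rw [hit, a3 x hx hx', b1 x hx hx']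
      simp only [map_mul, map_add, MvPolynomial.eval_C, map_pow, MvPolynomial.eval_X]
      have c1 : x ^ (α - 1/2 - 3 * (n : ℝ) - 1 - 1 - 1) = x ^ (α - 1/2 - 3 * ((n + 1 : ℕ) : ℝ)) := by
        congr 1; push_cast; ring
      have c2 : x ^ (5 * (α - 1/2) - 3 * (n : ℝ) - 1)
          = x ^ (α - 1/2 - 3 * ((n + 1 : ℕ) : ℝ)) * (pt α x 0) ^ 2 := by
        have : pt α x 0 = x ^ (2 * α) := by simp [pt]
        rw [this, ← Real.rpow_natCast, ← Real.rpow_mul hx.le, ← Real.rpow_add hx]
        congr 1; push_cast; ring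
      rw [c1, c2]
      have d1 : α - 1/2 - 3 * (n : ℝ) - 1 - 1 = α - 1/2 - 3 * n - 2 := by ring
      rw [d1]
      ring
    · simp [hi]

end Expl57

theorem thm_EXPL : S_EXPL := by
  intro α p J n i x _ _ hx hx'
  exact Expl57.main α p J n i x hx hx'

end Pool.Agent.Helper41.KV
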